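import Mathlib
import Pool.Agent.Results.MP_598c06_an.EveryFiniteLevel

/-!
# MP_fee8af_an: finite levels inside a graph matchbox manifold at infinite level

We use the set-up of `Pool.Agent.Results.MP_598c06_an.EveryFiniteLevel`: the space `X n` of infinite
subtrees of the Cayley graph of `F_n` containing `1`, spaces `KenyonGhys n` having `X n` as complete
transversal with the re-rooting orbits as traces of the leaves, levels, and the trees `T_k`
(`syllTree`, products of `k + 1` alternating powers of two generators `a`, `b`) which are at level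
exactly `k`.

Let `c` be a third generator and let `T` be the tree of all the `c ^ m * h` (`m : ℤ`), where `h` is a
product of `|m| + 1` alternating powers of `a` and `b`, the first one of `a`.  Re-rooting `T` at
`c ^ m * a ^ s`, `s → ∞`, we see that all the `T_k` are in the closure of the orbit of `T`; so the
closure `M` of the leaf of `T` is at infinite level, and the leaf of `T_k` is a leaf of `M` at level
`k` which is not dense in `M`.
-/

set_option autoImplicit false

namespace Pool.Agent.Results.MP_fee8af_an.AllFiniteLevels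

open FreeGroup Set Pool.Agent.Results.MP_598c06_an.EveryFiniteLevel

universe u

section tree

variable {n : ℕ} (ℓ : Bool → Fin n) (c : Fin n)

/-- the vertices -/
def vert : Set (FreeGroup (Fin n)) :=
  {g | ∃ m : ℤ, ∃ h ∈ syll ℓ (m.natAbs + 1) true, g = of c ^ m * h}

lemma zpow_mem_vert (m : ℤ) : of c ^ m ∈ vert ℓ c := ⟨m, 1, one_mem_syll ℓ _ _, by simp⟩

lemma vert_infinite : (vert ℓ c).Infinite := by
  refine Set.infinite_of_injective_forall_mem (f := fun m : ℕ => of c ^ m) ?_ ?_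
  · intro a b hab
    have := congrArg FreeGroup.norm hab
    simpa using this
  · intro m
    have := zpow_mem_vert ℓ c (m : ℤ)
    simpa using this

lemma vert_connected : ((cayley n).induce (vert ℓ c)).Connected := by
  have h1V : (1 : FreeGroup (Fin n)) ∈ vert ℓ c := by simpa using zpow_mem_vert ℓ c 0
  have : Nonempty (vert ℓ c) := ⟨⟨1, h1V⟩⟩
  have key : ∀ x : vert ℓ c, ((cayley n).induce (vert ℓ c)).Reachable ⟨1, h1V⟩ x := by
    rintro ⟨_, m, h, hh, rfl⟩
    have r1 := reach_pow (vert ℓ c) c 1 (fun m => by simpa using zpow_mem_vert ℓ c m) m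
    have r2 := reach_syll ℓ (vert ℓ c) (m.natAbs + 1) true (1 * of c ^ m) (fun x hx => by
      rw [one_mul]
      exact ⟨m, x, hx, rfl⟩) h hh
    have r3 := r1.trans r2
    have e : (⟨1 * of c ^ m * h, by rw [one_mul]; exact ⟨m, h, hh, rfl⟩⟩ : vert ℓ c) =
        ⟨of c ^ m * h, m, h, hh, rfl⟩ := by
      ext; simp
    rwa [e] at r3
  exact ⟨fun x y => (key x).symm.trans (key y)⟩

/-- the tree -/
def bigTree : X n :=
  ⟨vert ℓ c, by simpa using zpow_mem_vert ℓ c 0, vert_infinite ℓ c, vert_connected ℓ c⟩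

lemma starts_unique {i j : Fin n} {g : FreeGroup (Fin n)} (hi : Starts i g) (hj : Starts j g) :
    i = j := by
  obtain ⟨b, L, h⟩ := hi
  obtain ⟨b', L', h'⟩ := hj
  rw [h] at h'
  simp only [List.cons.injEq, Prod.mk.injEq] at h'
  exact h'.1.1

/-- products of alternating powers of `a` and `b` are trivial or start with `a` or with `b` -/
lemma syll_starts (hℓ : ∀ c, ℓ c ≠ ℓ (!c)) {k : ℕ} {d : Bool} {g : FreeGroup (Fin n)}
    (hg : g ∈ syll ℓ (k + 1) d) : g = 1 ∨ ∃ e, Starts (ℓ e) g := by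
  obtain ⟨m, h, _, rfl, hh⟩ := exists_good ℓ hℓ k d g hg
  by_cases hm : m = 0
  · subst hm
    rw [zpow_zero, one_mul]
    exact hh.imp id fun h => ⟨_, h⟩
  · right
    refine ⟨d, starts_zpow_mul (ℓ d) m hm h ?_⟩
    rcases hh with rfl | hh
    · exact not_starts_one _
    · intro hs
      exact hℓ d (starts_unique hs hh)

/-- all the trees `T_k` are limits of the orbit of the big tree -/
lemma syllTree_mem (hℓ : ∀ c, ℓ c ≠ ℓ (!c)) (hc : ∀ e, ℓ e ≠ c) (k : ℕ) :
    syllTree ℓ k true ∈ closure (orbit (bigTree ℓ c)) := by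
  rw [mem_closure_iff_agree]
  intro r
  have hk : ((k : ℤ)).natAbs + 1 = k + 1 := by simp
  have hmem : of c ^ (k : ℤ) * of (ℓ true) ^ ((r + 1 : ℕ) : ℤ) ∈ (bigTree ℓ c).1 :=
    ⟨k, _, zpow_mem_syll ℓ _ _ _, rfl⟩
  refine ⟨reroot (bigTree ℓ c) _ hmem, ⟨_, hmem, rfl⟩, ?_⟩
  intro u hu
  change u ∈ syll ℓ (k + 1) true ↔
    of c ^ (k : ℤ) * of (ℓ true) ^ ((r + 1 : ℕ) : ℤ) * u ∈ vert ℓ c
  constructor
  · intro hu'
    refine ⟨k, of (ℓ true) ^ ((r + 1 : ℕ) : ℤ) * u, ?_, by rw [mul_assoc]⟩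
    rw [hk]
    exact mul_mem_syll ℓ _ hu'
  · rintro ⟨m, h, hh, he⟩
    -- `a ^ (r + 1) * u` starts with `a`
    have hs0 : Starts (ℓ true) (of (ℓ true) ^ (r + 1)) :=
      ⟨true, List.replicate r (ℓ true, true), by rw [toWord_of_pow, List.replicate_succ]⟩
    have hx1 : of (ℓ true) ^ ((r + 1 : ℕ) : ℤ) * u ≠ 1 := by
      intro h1
      have h2 : u = (of (ℓ true) ^ (r + 1))⁻¹ := by
        rw [zpow_natCast] at h1
        exact (eq_inv_of_mul_eq_one_right h1)
      rw [h2, norm_inv_eq, norm_of_pow] at hu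
      omega
    have hxs : ∀ j, Starts j (of (ℓ true) ^ ((r + 1 : ℕ) : ℤ) * u) → j = ℓ true := by
      intro j hj
      by_contra hne
      have h1 := norm_inv_mul_of_starts (fun h => hne h.symm) hs0 hj
      rw [zpow_natCast, inv_mul_cancel_left, norm_of_pow] at h1
      omega
    have hnsc : ¬ Starts c (of (ℓ true) ^ ((r + 1 : ℕ) : ℤ) * u) := fun hsc =>
      hc true (hxs c hsc).symm
    by_cases hm : (k : ℤ) = m
    · subst hm
      have h1 : of (ℓ true) ^ ((r + 1 : ℕ) : ℤ) * u = h := by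
        rw [mul_assoc] at he
        exact mul_left_cancel he
      rw [← h1, hk, mul_mem_syll_iff] at hh
      exact hh
    · exfalso
      have h1 : h = of c ^ ((k : ℤ) - m) * (of (ℓ true) ^ ((r + 1 : ℕ) : ℤ) * u) := by
        have h2 : h = (of c ^ m)⁻¹ * (of c ^ (k : ℤ) * of (ℓ true) ^ ((r + 1 : ℕ) : ℤ) * u) := by
          rw [he, inv_mul_cancel_left]
        rw [h2, sub_eq_neg_add, zpow_add, zpow_neg]
        simp only [mul_assoc]
      have h2 : Starts c h := by
        rw [h1]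
        exact starts_zpow_mul c _ (sub_ne_zero.2 hm) _ hnsc
      rcases syll_starts ℓ hℓ hh with h3 | ⟨e, h3⟩
      · rw [h3] at h2
        exact not_starts_one _ h2
      · exact hc e (starts_unique h3 h2)

end tree

/-- Let `n ≥ 3` and let `𝔐` be a foliated space of Kenyon-Ghys type for `F_n`. There is a leaf `L`
of `𝔐` whose closure (a graph matchbox manifold) is at no finite level, such that for every `k` there
is a leaf in the closure of `L`, not dense in the closure of `L`, which is at level `k`. -/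
theorem result (n : ℕ) (hn : 3 ≤ n) (𝔐 : KenyonGhys.{u} n) :
    ∃ T : X n, (∀ j : ℕ, ¬ 𝔐.AtLevel j (closure (𝔐.leaf (𝔐.ι T)))) ∧
      ∀ k : ℕ, ∃ y ∈ closure (𝔐.leaf (𝔐.ι T)),
        ¬ closure (𝔐.leaf (𝔐.ι T)) ⊆ closure (𝔐.leaf y) ∧
        𝔐.AtLevel k (closure (𝔐.leaf y)) := by
  have hn2 : 2 ≤ n := by omega
  have hℓ : ∀ c, letter n hn2 c ≠ letter n hn2 (!c) := by
    intro c
    cases c <;> simp [letter]
  let c : Fin n := ⟨2, by omega⟩
  have hc : ∀ e, letter n hn2 e ≠ c := by
    intro e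
    cases e <;> simp [letter, c]
  let T : X n := bigTree (letter n hn2) c
  let S : ℕ → X n := fun k => syllTree (letter n hn2) k true
  have hlev : ∀ k, 𝔐.AtLevel k (closure (𝔐.leaf (𝔐.ι (S k)))) := fun k =>
    𝔐.atLevel_syllTree (letter n hn2) hℓ k true
  have hmem : ∀ k, 𝔐.ι (S k) ∈ closure (𝔐.leaf (𝔐.ι T)) := fun k =>
    (𝔐.mem_closure_leaf_iff T (S k)).2 (syllTree_mem (letter n hn2) c hℓ hc k)
  -- the closure of the leaf of `S k` contains no leaf at a higher level
  have hnd : ∀ k, ¬ closure (𝔐.leaf (𝔐.ι T)) ⊆ closure (𝔐.leaf (𝔐.ι (S k))) := by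
    intro k hsub
    obtain ⟨j, hj, hj'⟩ := 𝔐.atLevel_le (hlev k) (hsub (hmem (k + 1)))
    have := 𝔐.atLevel_unique _ _ _ hj' (hlev (k + 1))
    omega
  refine ⟨T, ?_, fun k => ⟨_, hmem k, hnd k, hlev k⟩⟩
  intro j hj
  obtain ⟨i, hi, hi'⟩ := 𝔐.atLevel_le hj (hmem (j + 1))
  have := 𝔐.atLevel_unique _ _ _ hi' (hlev (j + 1))
  omega

end Pool.Agent.Results.MP_fee8af_an.AllFiniteLevels
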